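import Mathlib
import Pool.Agent.Y248.FC.Stm

set_option autoImplicit false

/-! # Project FC: annuli, the general principle -/

namespace Pool.Agent.Y86.FC

open MeasureTheory Set Metric Complex Filter
open scoped ENNReal RealInnerProductSpace Topology FourierTransform ComplexConjugate
open Pool.Agent.H789R2.FR (E sg T)
open Pool.Agent.H438R2.RZ (Bump)
open Pool.Agent.Y248.BA (mu Kr Tp)
open Pool.Agent.Y248.FB Pool.Agent.Y248.FC

/-- the integrand of `Fm` -/
noncomputable def ff {k : ℕ} (h : E k → ℂ) (η t : E k) : ℂ :=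
  h t * cexp (((2 * Real.pi * ⟪t, η⟫ : ℝ) : ℂ) * I)

theorem norm_ff {k : ℕ} (h : E k → ℂ) (η t : E k) : ‖ff h η t‖ = ‖h t‖ := by
  unfold ff
  rw [norm_mul, Complex.norm_exp_ofReal_mul_I, mul_one]

theorem ff_meas {k : ℕ} {h : E k → ℂ} (hh : Measurable h) :
    Measurable (Function.uncurry (ff h)) := by
  have h1 : Continuous fun p : E k × E k =>
      cexp (((2 * Real.pi * ⟪p.2, p.1⟫ : ℝ) : ℂ) * I) := by fun_prop
  exact (hh.comp measurable_snd).mul h1.measurable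

theorem ff_mul {k : ℕ} (h : E k → ℂ) (η t s : E k) : ff h η t * conj (ff h η s) =
    (h t * conj (h s)) * cexp (((-2 * Real.pi * ⟪η, s - t⟫ : ℝ) : ℂ) * I) := by
  unfold ff
  rw [map_mul, ← Complex.exp_conj, map_mul, Complex.conj_ofReal, Complex.conj_I]
  have h1 : cexp (((2 * Real.pi * ⟪t, η⟫ : ℝ) : ℂ) * I) *
      cexp (((2 * Real.pi * ⟪s, η⟫ : ℝ) : ℂ) * -I) =
      cexp (((-2 * Real.pi * ⟪η, s - t⟫ : ℝ) : ℂ) * I) := by
    rw [← Complex.exp_add]
    congr 1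
    rw [inner_sub_right, real_inner_comm s η, real_inner_comm t η]
    push_cast
    ring
  rw [← h1]
  ring

/-- The general principle. -/
theorem principle {k : ℕ} (ν : Measure (E k)) [IsFiniteMeasure ν] (h : E k → ℂ)
    (hh : Measurable h) (M : ℝ) (hM : ∀ x, ‖h x‖ ≤ M) (w : E k → ℝ) (hw : Measurable w)
    (hwi : Integrable w) (hw0 : ∀ x, 0 ≤ w x) (S : Set (E k))
    (hwS : ∀ x ∈ S, 1 ≤ w x) (hS : MeasurableSet S) (G : ℝ → ℝ) (hG : Measurable G)
    (hWG : ∀ x, ‖𝓕 (fun y : E k => (w y : ℂ)) x‖ ≤ G ‖x‖) (Q : ℝ≥0∞)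
    (hQ : ∀ t, ∫⁻ s, ENNReal.ofReal (G ‖s - t‖) ∂ν ≤ Q) :
    ∫⁻ η in S, ‖Fm h ν η‖ₑ ^ (2 : ℝ) ≤ Q * ∫⁻ x, ‖h x‖ₑ ^ (2 : ℝ) ∂ν := by
  have hM0 : 0 ≤ M := (norm_nonneg _).trans (hM 0)
  have hfm := ff_meas hh
  have hFeq : ∀ η, Fm h ν η = ∫ t, ff h η t ∂ν := fun η => rfl
  have hFm : StronglyMeasurable (Fm h ν) := hfm.stronglyMeasurable.integral_prod_right
  set D : ℝ := M * ν.real univ with hD
  have hD0 : 0 ≤ D := by positivity
  have hFb : ∀ η, ‖Fm h ν η‖ ≤ D := by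
    intro η
    rw [hFeq]
    refine norm_integral_le_of_norm_le_const (ae_of_all _ fun t => ?_)
    rw [norm_ff]
    exact hM t
  have hint : Integrable (fun η => w η * ‖Fm h ν η‖ ^ 2) := by
    refine (hwi.const_mul (D ^ 2)).mono' (hw.mul (hFm.measurable.norm.pow_const 2)).aestronglyMeasurable
      (ae_of_all _ fun η => ?_)
    rw [Real.norm_eq_abs, abs_of_nonneg (mul_nonneg (hw0 η) (by positivity)), mul_comm]
    exact mul_le_mul_of_nonneg_right (pow_le_pow_left₀ (norm_nonneg _) (hFb η) 2) (hw0 η)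
  set J : ℝ := ∫ η, w η * ‖Fm h ν η‖ ^ 2 with hJ
  -- first step
  have H1 : ∫⁻ η in S, ‖Fm h ν η‖ₑ ^ (2 : ℝ) ≤ ENNReal.ofReal J := by
    rw [hJ, ofReal_integral_eq_lintegral_ofReal hint
      (ae_of_all _ fun η => mul_nonneg (hw0 η) (by positivity))]
    refine le_trans ?_ (setLIntegral_le_lintegral S _)
    refine setLIntegral_mono' hS fun η hη => ?_
    rw [← ofReal_norm, ENNReal.ofReal_rpow_of_nonneg (norm_nonneg _) (by norm_num)]
    apply ENNReal.ofReal_le_ofReal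
    have h1 : ‖Fm h ν η‖ ^ (2 : ℝ) = ‖Fm h ν η‖ ^ 2 := by norm_cast
    rw [h1]
    have h2 := hwS η hη
    have h3 : 0 ≤ ‖Fm h ν η‖ ^ 2 := by positivity
    nlinarith
  -- second step
  have hprod : Integrable (Function.uncurry fun (η : E k) (z : E k × E k) =>
      (w η : ℂ) * (ff h η z.1 * conj (ff h η z.2)))
      ((volume : Measure (E k)).prod (ν.prod ν)) := by
    have h1 : Integrable (fun p : E k × (E k × E k) => w p.1 * (fun _ : E k × E k => M ^ 2) p.2)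
        ((volume : Measure (E k)).prod (ν.prod ν)) := hwi.mul_prod (integrable_const _)
    refine h1.mono' ?_ (ae_of_all _ fun p => ?_)
    · refine Measurable.aestronglyMeasurable ?_
      have hm1 : Measurable fun p : E k × (E k × E k) => ff h p.1 p.2.1 :=
        hfm.comp (measurable_fst.prodMk (measurable_fst.comp measurable_snd))
      have hm2 : Measurable fun p : E k × (E k × E k) => ff h p.1 p.2.2 :=
        hfm.comp (measurable_fst.prodMk (measurable_snd.comp measurable_snd))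
      exact (Complex.measurable_ofReal.comp (hw.comp measurable_fst)).mul
        (hm1.mul (Complex.continuous_conj.measurable.comp hm2))
    · change ‖(w p.1 : ℂ) * (ff h p.1 p.2.1 * conj (ff h p.1 p.2.2))‖ ≤ w p.1 * M ^ 2
      rw [norm_mul, norm_mul, Complex.norm_real, Real.norm_eq_abs, abs_of_nonneg (hw0 _),
        RCLike.norm_conj, norm_ff, norm_ff, sq]
      exact mul_le_mul_of_nonneg_left (mul_le_mul (hM _) (hM _) (norm_nonneg _) hM0) (hw0 _)
  have H2 : (J : ℂ) = ∫ z : E k × E k, (h z.1 * conj (h z.2)) *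
      𝓕 (fun y : E k => (w y : ℂ)) (z.2 - z.1) ∂(ν.prod ν) := by
    have e1 : (J : ℂ) = ∫ η, ∫ z : E k × E k, (w η : ℂ) * (ff h η z.1 * conj (ff h η z.2))
        ∂(ν.prod ν) := by
      rw [hJ, ← integral_complex_ofReal]
      refine integral_congr_ae (ae_of_all _ fun η => ?_)
      change ((w η * ‖Fm h ν η‖ ^ 2 : ℝ) : ℂ) =
        ∫ z : E k × E k, (w η : ℂ) * (ff h η z.1 * conj (ff h η z.2)) ∂(ν.prod ν)
      rw [integral_const_mul, integral_prod_mul (fun t => ff h η t) (fun s => conj (ff h η s)),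
        integral_conj]
      rw [← hFeq, Complex.mul_conj']
      push_cast
      rfl
    rw [e1, integral_integral_swap hprod]
    refine integral_congr_ae (ae_of_all _ fun z => ?_)
    change ∫ η, (w η : ℂ) * (ff h η z.1 * conj (ff h η z.2)) =
      (h z.1 * conj (h z.2)) * 𝓕 (fun y : E k => (w y : ℂ)) (z.2 - z.1)
    rw [Real.fourier_eq', ← integral_const_mul]
    refine integral_congr_ae (ae_of_all _ fun η => ?_)
    change (w η : ℂ) * (ff h η z.1 * conj (ff h η z.2)) = (h z.1 * conj (h z.2)) *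
      (cexp (((-2 * Real.pi * ⟪η, z.2 - z.1⟫ : ℝ) : ℂ) * I) • (w η : ℂ))
    rw [ff_mul, smul_eq_mul]
    ring
  -- third step
  have H3 : ENNReal.ofReal J ≤ ∫⁻ z : E k × E k,
      (ENNReal.ofReal (‖h z.1‖ ^ 2 / 2) * ENNReal.ofReal (G ‖z.2 - z.1‖) +
        ENNReal.ofReal (‖h z.2‖ ^ 2 / 2) * ENNReal.ofReal (G ‖z.2 - z.1‖)) ∂(ν.prod ν) := by
    have e1 : ENNReal.ofReal J ≤ ‖(J : ℂ)‖ₑ := by
      rw [← ofReal_norm, Complex.norm_real, Real.norm_eq_abs]
      exact ENNReal.ofReal_le_ofReal (le_abs_self J)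
    refine e1.trans ?_
    rw [H2]
    refine (enorm_integral_le_lintegral_enorm _).trans (lintegral_mono fun z => ?_)
    have hG0 : 0 ≤ G ‖z.2 - z.1‖ := (norm_nonneg _).trans (hWG _)
    rw [← ofReal_norm, norm_mul, norm_mul, RCLike.norm_conj, ← ENNReal.ofReal_mul (by positivity),
      ← ENNReal.ofReal_mul (by positivity), ← ENNReal.ofReal_add (by positivity) (by positivity)]
    apply ENNReal.ofReal_le_ofReal
    have e2 := hWG (z.2 - z.1)
    have e3 : ‖h z.1‖ * ‖h z.2‖ ≤ ‖h z.1‖ ^ 2 / 2 + ‖h z.2‖ ^ 2 / 2 := by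
      nlinarith [sq_nonneg (‖h z.1‖ - ‖h z.2‖)]
    calc ‖h z.1‖ * ‖h z.2‖ * ‖𝓕 (fun y : E k => (w y : ℂ)) (z.2 - z.1)‖
        ≤ (‖h z.1‖ ^ 2 / 2 + ‖h z.2‖ ^ 2 / 2) * G ‖z.2 - z.1‖ :=
          mul_le_mul e3 e2 (norm_nonneg _) (by positivity)
      _ = _ := by ring
  refine H1.trans (H3.trans ?_)
  have hGm : Measurable fun z : E k × E k => ENNReal.ofReal (G ‖z.2 - z.1‖) :=
    (hG.comp (measurable_snd.sub measurable_fst).norm).ennreal_ofReal
  have hG1 : ∀ t : E k, Measurable fun s : E k => ENNReal.ofReal (G ‖s - t‖) := fun t =>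
    (hG.comp (measurable_id.sub_const t).norm).ennreal_ofReal
  have hG2 : ∀ s : E k, Measurable fun t : E k => ENNReal.ofReal (G ‖s - t‖) := fun s =>
    (hG.comp (measurable_id.const_sub s).norm).ennreal_ofReal
  have hhm : Measurable fun t : E k => ENNReal.ofReal (‖h t‖ ^ 2 / 2) :=
    ((hh.norm.pow_const 2).div_const 2).ennreal_ofReal
  have hm1 : Measurable fun z : E k × E k =>
      ENNReal.ofReal (‖h z.1‖ ^ 2 / 2) * ENNReal.ofReal (G ‖z.2 - z.1‖) :=
    (hhm.comp measurable_fst).mul hGm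
  have hm2 : Measurable fun z : E k × E k =>
      ENNReal.ofReal (‖h z.2‖ ^ 2 / 2) * ENNReal.ofReal (G ‖z.2 - z.1‖) :=
    (hhm.comp measurable_snd).mul hGm
  rw [lintegral_add_left hm1, lintegral_prod _ hm1.aemeasurable,
    lintegral_prod_symm _ hm2.aemeasurable]
  have e1 : ∫⁻ t, ∫⁻ s, ENNReal.ofReal (‖h t‖ ^ 2 / 2) * ENNReal.ofReal (G ‖s - t‖) ∂ν ∂ν ≤
      Q * ∫⁻ t, ENNReal.ofReal (‖h t‖ ^ 2 / 2) ∂ν := by
    rw [← lintegral_const_mul _ hhm]
    refine lintegral_mono fun t => ?_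
    rw [lintegral_const_mul _ (hG1 t), mul_comm]
    exact mul_le_mul_left (hQ t) _
  have e2 : ∫⁻ s, ∫⁻ t, ENNReal.ofReal (‖h s‖ ^ 2 / 2) * ENNReal.ofReal (G ‖s - t‖) ∂ν ∂ν ≤
      Q * ∫⁻ t, ENNReal.ofReal (‖h t‖ ^ 2 / 2) ∂ν := by
    rw [← lintegral_const_mul _ hhm]
    refine lintegral_mono fun s => ?_
    rw [lintegral_const_mul _ (hG2 s), mul_comm]
    refine mul_le_mul_left (le_trans (lintegral_mono fun t => ?_) (hQ s)) _
    rw [norm_sub_rev]
  refine (add_le_add e1 e2).trans (le_of_eq ?_)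
  rw [← mul_add, ← lintegral_add_left hhm]
  congr 1
  refine lintegral_congr fun t => ?_
  rw [← ENNReal.ofReal_add (by positivity) (by positivity), add_halves, ← ofReal_norm,
    ENNReal.ofReal_rpow_of_nonneg (norm_nonneg _) (by norm_num)]
  congr 1
  norm_cast

/-- integrals of powers against a measure of dimension `β` -/
theorem growth {β τ : ℝ} (hτ0 : 0 ≤ τ) (hτ : β < τ) : ∃ C : ℝ, 0 < C ∧ ∀ {k : ℕ} (K₀ : ℝ),
    0 ≤ K₀ → ∀ ν : Measure (E k),
    (∀ (t : E k) (r : ℝ), 1 ≤ r → ν (closedBall t r) ≤ ENNReal.ofReal (K₀ * r ^ β)) →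
    ∀ r : ℝ, 0 < r → r ≤ 1 → ∀ t : E k,
      ∫⁻ s, ENNReal.ofReal ((1 + r * ‖s - t‖) ^ (-τ)) ∂ν ≤
        ENNReal.ofReal (C * K₀ * r ^ (-β)) := by
  set q : ℝ := (2 : ℝ) ^ (β - τ) with hq
  have hq0 : 0 < q := by positivity
  have hq1 : q < 1 := Real.rpow_lt_one_of_one_lt_of_neg one_lt_two (by linarith)
  refine ⟨(2 : ℝ) ^ τ * (1 - q)⁻¹, mul_pos (by positivity) (inv_pos.2 (by linarith)), ?_⟩
  intro k K₀ hK₀ ν hν r hr hr1 t
  have hpt : ∀ s : E k, ENNReal.ofReal ((1 + r * ‖s - t‖) ^ (-τ)) ≤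
      ∑' i : ℕ, (closedBall t ((2 : ℝ) ^ i / r)).indicator
        (fun _ => ENNReal.ofReal ((2 : ℝ) ^ τ * ((2 : ℝ) ^ i) ^ (-τ))) s := by
    intro s
    obtain ⟨i, hi1, hi2⟩ : ∃ i : ℕ, r * ‖s - t‖ ≤ (2 : ℝ) ^ i ∧
        (1 + r * ‖s - t‖) ^ (-τ) ≤ (2 : ℝ) ^ τ * ((2 : ℝ) ^ i) ^ (-τ) := by
      rcases le_total (r * ‖s - t‖) 1 with h1 | h1
      · refine ⟨0, by simpa using h1, ?_⟩
        rw [pow_zero, Real.one_rpow, mul_one]
        calc (1 + r * ‖s - t‖) ^ (-τ) ≤ 1 :=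
              Real.rpow_le_one_of_one_le_of_nonpos (by
                have : 0 ≤ r * ‖s - t‖ := by positivity
                linarith) (by linarith)
          _ ≤ (2 : ℝ) ^ τ := Real.one_le_rpow one_le_two hτ0
      · obtain ⟨n, hn1, hn2⟩ := exists_nat_pow_near h1 one_lt_two
        refine ⟨n + 1, hn2.le, ?_⟩
        have h2 : (2 : ℝ) ^ τ * ((2 : ℝ) ^ (n + 1)) ^ (-τ) = ((2 : ℝ) ^ n) ^ (-τ) := by
          rw [pow_succ, Real.mul_rpow (by positivity) (by norm_num), mul_comm, mul_assoc,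
            ← Real.rpow_add two_pos, neg_add_cancel, Real.rpow_zero, mul_one]
        rw [h2]
        refine Real.rpow_le_rpow_of_nonpos (by positivity) ?_ (by linarith)
        linarith
    refine le_trans ?_ (ENNReal.le_tsum i)
    have h1 : s ∈ closedBall t ((2 : ℝ) ^ i / r) := by
      rw [mem_closedBall, dist_eq_norm, le_div_iff₀ hr, mul_comm]
      exact hi1
    rw [indicator_of_mem h1]
    exact ENNReal.ofReal_le_ofReal hi2
  refine (lintegral_mono hpt).trans ?_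
  rw [lintegral_tsum fun i => (measurable_const.indicator
    isClosed_closedBall.measurableSet).aemeasurable]
  have hterm : ∀ i : ℕ, ∫⁻ s, (closedBall t ((2 : ℝ) ^ i / r)).indicator
      (fun _ => ENNReal.ofReal ((2 : ℝ) ^ τ * ((2 : ℝ) ^ i) ^ (-τ))) s ∂ν ≤
      ENNReal.ofReal ((2 : ℝ) ^ τ * K₀ * r ^ (-β) * q ^ i) := by
    intro i
    rw [lintegral_indicator isClosed_closedBall.measurableSet, setLIntegral_const]
    have h1 : 1 ≤ (2 : ℝ) ^ i / r := by
      rw [le_div_iff₀ hr, one_mul]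
      exact hr1.trans (one_le_pow₀ one_le_two)
    refine (mul_le_mul_right (hν t _ h1) _).trans ?_
    rw [← ENNReal.ofReal_mul (by positivity)]
    apply ENNReal.ofReal_le_ofReal
    apply le_of_eq
    have h2 : q ^ i = ((2 : ℝ) ^ i) ^ (-τ) * ((2 : ℝ) ^ i) ^ β := by
      rw [hq, ← Real.rpow_natCast ((2 : ℝ) ^ (β - τ)), ← Real.rpow_natCast (2 : ℝ) i,
        ← Real.rpow_mul two_pos.le, ← Real.rpow_mul two_pos.le, ← Real.rpow_mul two_pos.le,
        ← Real.rpow_add two_pos]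
      congr 1
      ring
    rw [h2, Real.div_rpow (by positivity) hr.le, Real.rpow_neg hr.le]
    field_simp
  refine (ENNReal.tsum_le_tsum hterm).trans ?_
  rw [← ENNReal.ofReal_tsum_of_nonneg (fun i => by positivity)
    ((summable_geometric_of_lt_one hq0.le hq1).mul_left _), tsum_mul_left,
    tsum_geometric_of_lt_one hq0.le hq1]
  apply ENNReal.ofReal_le_ofReal
  apply le_of_eq
  ring

end Pool.Agent.Y86.FC
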