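import Mathlib
import Pool.Agent.Y86.FC.An1
import Pool.Agent.Y86.FB.SC

set_option autoImplicit false

/-! # Project FC: annuli, the estimate -/

namespace Pool.Agent.Y86.FC

open MeasureTheory Set Metric Complex Filter
open scoped ENNReal RealInnerProductSpace Topology FourierTransform ComplexConjugate
open Pool.Agent.H789R2.FR (E sg T)
open Pool.Agent.H438R2.RZ (Bump)
open Pool.Agent.Y248.BA (mu Kr Tp Kr_dec mu_int)
open Pool.Agent.Y248.FB Pool.Agent.Y248.FC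

/-- interpolation of the two bounds for the kernel -/
theorem kr_bound {k : ℕ} (hk : 1 ≤ k) (hKK : S_KK k) {ψ : ℝ → ℝ} (hψ : Bump ψ) (β b : ℝ)
    (hb : 0 < b) (hβ : kap k ≤ β) : ∃ τ C : ℝ, β < τ ∧ 0 < C ∧ ∀ A R : ℝ, 4 ≤ A → 1 ≤ R → R ≤ 2 →
      ∀ w : E k, ‖Kr (n := k) ψ A R w‖ ≤ C * A ^ (β - kap k - 1 + b) * (1 + ‖w‖) ^ (-τ) := by
  set κ := kap k with hκ
  have hκ0 : 0 ≤ κ := by
    rw [hκ]
    unfold kap
    have : (1 : ℝ) ≤ k := by exact_mod_cast hk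
    linarith
  set s : ℝ := β - κ + b / 2 with hs
  have hs0 : 0 < s := by linarith
  obtain ⟨N, hN⟩ := exists_nat_gt (s * (1 + κ) * 4 / b + s + 1)
  have hNb : s * (1 + κ) * 4 / b < N := by linarith
  have hNs : s < N := by
    have : 0 < s * (1 + κ) * 4 / b := by positivity
    linarith
  have hN0 : (0 : ℝ) < N := by linarith
  obtain ⟨C0, hC0, hb0⟩ := Kr_dec k hψ 0
  obtain ⟨C1, hC1, hb1⟩ := Kr_dec k hψ N
  obtain ⟨C3, hC3, hb3⟩ := hKK ψ hψ
  set C2 : ℝ := 2 ^ N * (C0 + C1) with hC2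
  have hC20 : 0 < C2 := by positivity
  set θ : ℝ := s / N with hθ
  have hθ0 : 0 ≤ θ := by positivity
  have hθ1 : θ ≤ 1 := by
    rw [hθ, div_le_one hN0]
    exact hNs.le
  have hθN : θ * N = s := by
    rw [hθ]
    field_simp
  have hθb : θ * (1 + κ) ≤ b / 4 := by
    rw [div_lt_iff₀ hb] at hNb
    rw [hθ, div_mul_eq_mul_div, div_le_iff₀ hN0]
    nlinarith
  have hθb' : θ ≤ b / 4 := by nlinarith
  refine ⟨κ * (1 - θ) + s, C3 ^ (1 - θ) * C2 ^ θ, ?_, by positivity, fun A R hA hR1 hR2 w => ?_⟩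
  · nlinarith
  have hA0 : 0 < A := by linarith
  set U : ℝ := 1 + ‖w‖ with hU
  have hU0 : 0 < U := by positivity
  set x : ℝ := ‖Kr (n := k) ψ A R w‖ with hx
  have hx0 : 0 ≤ x := norm_nonneg _
  have a1 : x ≤ C3 * A ^ (-1 : ℝ) * U ^ (-κ) := by
    have h1 := (hb3 A R R hA hR1 hR2 hR1 hR2 w).1
    rw [Real.rpow_neg_one, ← div_eq_mul_inv]
    exact h1
  have a2 : x ≤ C2 * A ^ (N : ℝ) * U ^ (-(N : ℝ)) := by
    have h0 := hb0 A R (by linarith) hR1 hR2 w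
    have h1 := hb1 A R (by linarith) hR1 hR2 w
    rw [pow_zero, one_mul, pow_zero, mul_one] at h0
    rw [Real.rpow_neg hU0.le, Real.rpow_natCast, Real.rpow_natCast, ← div_eq_mul_inv,
      le_div_iff₀ (by positivity)]
    have hAN : 1 ≤ A ^ N := one_le_pow₀ (by linarith)
    have hUN : U ^ N ≤ 2 ^ N * (1 + ‖w‖ ^ N) := by
      rcases le_total ‖w‖ 1 with h2 | h2
      · calc U ^ N ≤ 2 ^ N := pow_le_pow_left₀ hU0.le (by linarith) N
          _ ≤ 2 ^ N * (1 + ‖w‖ ^ N) := by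
            have : 0 ≤ ‖w‖ ^ N := by positivity
            nlinarith [pow_pos (two_pos (α := ℝ)) N]
      · calc U ^ N ≤ (2 * ‖w‖) ^ N := pow_le_pow_left₀ hU0.le (by linarith) N
          _ = 2 ^ N * ‖w‖ ^ N := mul_pow _ _ _
          _ ≤ 2 ^ N * (1 + ‖w‖ ^ N) := by
            have : (0 : ℝ) < 2 ^ N := by positivity
            nlinarith
    calc x * U ^ N ≤ x * (2 ^ N * (1 + ‖w‖ ^ N)) := mul_le_mul_of_nonneg_left hUN hx0
      _ = 2 ^ N * (x + ‖w‖ ^ N * x) := by ring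
      _ ≤ 2 ^ N * (C0 * A ^ N + C1 * A ^ N) := by
          have h2 : x ≤ C0 * A ^ N := h0.trans (by nlinarith)
          gcongr
      _ = C2 * A ^ N := by
          rw [hC2]
          ring
  have hsplit : x = x ^ (1 - θ) * x ^ θ := by
    rw [← Real.rpow_add' hx0 (by norm_num), sub_add_cancel, Real.rpow_one]
  have e1 : x ^ (1 - θ) ≤ C3 ^ (1 - θ) * A ^ (-(1 - θ)) * U ^ (-(κ * (1 - θ))) := by
    refine (Real.rpow_le_rpow hx0 a1 (by linarith)).trans (le_of_eq ?_)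
    rw [Real.mul_rpow (by positivity) (by positivity), Real.mul_rpow hC3.le (by positivity),
      ← Real.rpow_mul hA0.le, ← Real.rpow_mul hU0.le]
    congr 2
    · congr 1
      ring
    · ring
  have e2 : x ^ θ ≤ C2 ^ θ * A ^ s * U ^ (-s) := by
    refine (Real.rpow_le_rpow hx0 a2 hθ0).trans (le_of_eq ?_)
    rw [Real.mul_rpow (by positivity) (by positivity), Real.mul_rpow hC20.le (by positivity),
      ← Real.rpow_mul hA0.le, ← Real.rpow_mul hU0.le, neg_mul, mul_comm (N : ℝ) θ, hθN]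
  calc x = x ^ (1 - θ) * x ^ θ := hsplit
    _ ≤ (C3 ^ (1 - θ) * A ^ (-(1 - θ)) * U ^ (-(κ * (1 - θ)))) * (C2 ^ θ * A ^ s * U ^ (-s)) :=
        mul_le_mul e1 e2 (by positivity) (by positivity)
    _ = (C3 ^ (1 - θ) * C2 ^ θ) * A ^ (-(1 - θ) + s) * U ^ (-(κ * (1 - θ) + s)) := by
        have h1 : A ^ (-(1 - θ) + s) = A ^ (-(1 - θ)) * A ^ s := Real.rpow_add hA0 _ _
        have h2 : U ^ (-(κ * (1 - θ) + s)) = U ^ (-(κ * (1 - θ))) * U ^ (-s) := by
          rw [← Real.rpow_add hU0]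
          congr 1
          ring
        rw [h1, h2]
        ring
    _ ≤ (C3 ^ (1 - θ) * C2 ^ θ) * A ^ (β - κ - 1 + b) * U ^ (-(κ * (1 - θ) + s)) := by
        have h1 : A ^ (-(1 - θ) + s) ≤ A ^ (β - κ - 1 + b) :=
          Real.rpow_le_rpow_of_exponent_le (by linarith) (by rw [hs]; linarith)
        gcongr

/-- a bump function -/
theorem exists_bump : ∃ ψ : ℝ → ℝ, Bump ψ ∧ (∀ v, 0 ≤ ψ v) ∧
    ∀ v, 3 / 4 ≤ v → v ≤ 3 / 2 → ψ v = 1 := by
  let f : ContDiffBump (9 / 8 : ℝ) := ⟨3 / 8, 5 / 8, by norm_num, by norm_num⟩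
  refine ⟨f, ⟨f.contDiff, fun v hv => ?_⟩, fun v => f.nonneg, fun v h1 h2 => ?_⟩
  · have h1 : v ∈ Function.support f := hv
    rw [f.support_eq, mem_ball, Real.dist_eq] at h1
    have h2 := abs_lt.1 h1
    change -(5 / 8 : ℝ) < v - 9 / 8 ∧ v - 9 / 8 < 5 / 8 at h2
    constructor
    · linarith [h2.1]
    · linarith [h2.2]
  · refine f.one_of_mem_closedBall ?_
    rw [mem_closedBall, Real.dist_eq, abs_le]
    change -(3 / 8 : ℝ) ≤ v - 9 / 8 ∧ v - 9 / 8 ≤ 3 / 8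
    constructor <;> linarith

/-- Gaussian decay -/
theorem gauss_bound {τ : ℝ} (hτ : 0 ≤ τ) : ∃ C : ℝ, 0 < C ∧ ∀ u : ℝ, 0 ≤ u →
    Real.exp (-(Real.pi ^ 2 * u ^ 2)) ≤ C * (1 + u) ^ (-τ) := by
  obtain ⟨N, hN⟩ := exists_nat_ge τ
  refine ⟨N.factorial * Real.exp 2, by positivity, fun u hu => ?_⟩
  have h1 : (1 + u) ^ τ ≤ N.factorial * Real.exp (1 + u) := by
    calc (1 + u) ^ τ ≤ (1 + u) ^ (N : ℝ) :=
          Real.rpow_le_rpow_of_exponent_le (by linarith) hN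
      _ = (1 + u) ^ N := Real.rpow_natCast _ _
      _ ≤ N.factorial * Real.exp (1 + u) := by
          have h2 := Real.pow_div_factorial_le_exp (1 + u) (by linarith) N
          rw [div_le_iff₀ (by positivity)] at h2
          linarith
  rw [Real.rpow_neg (by positivity), ← div_eq_mul_inv, le_div_iff₀ (by positivity)]
  calc Real.exp (-(Real.pi ^ 2 * u ^ 2)) * (1 + u) ^ τ
      ≤ Real.exp (-(Real.pi ^ 2 * u ^ 2)) * (N.factorial * Real.exp (1 + u)) := by gcongr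
    _ = N.factorial * Real.exp (-(Real.pi ^ 2 * u ^ 2) + (1 + u)) := by
        rw [Real.exp_add (-(Real.pi ^ 2 * u ^ 2)) (1 + u)]
        ring
    _ ≤ N.factorial * Real.exp 2 := by
        have h3 : 1 ≤ Real.pi ^ 2 := by nlinarith [Real.pi_gt_three]
        have h4 : -(Real.pi ^ 2 * u ^ 2) + (1 + u) ≤ 2 := by nlinarith [sq_nonneg (u - 1 / 2)]
        gcongr

/-- comparison of powers -/
theorem pbound {k : ℕ} {β γ : ℝ} (hβk : β ≤ k) (h2 : 2 * γ ≤ k - β) {r ρ A : ℝ}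
    (hr : 0 < r) (hr1 : r ≤ 1) (hρ : 1 ≤ ρ) (hA1 : 3 / 8 * (r ^ 2 * ρ) ≤ A) (hA2 : A ≤ 2 * ρ) :
    r ^ k * A ^ (-γ) * r ^ (-β) ≤ ((3 / 8 : ℝ) ^ (-γ) + 2 ^ (-γ)) * ρ ^ (-γ) := by
  have hρ0 : 0 < ρ := by linarith
  have hA0 : 0 < A := lt_of_lt_of_le (by positivity) hA1
  have e0 : r ^ k * r ^ (-β) = r ^ ((k : ℝ) - β) := by
    rw [← Real.rpow_natCast r k, ← Real.rpow_add hr]
    ring_nf
  rcases le_total 0 γ with hγ | hγ
  · have e1 : A ^ (-γ) ≤ (3 / 8 * (r ^ 2 * ρ)) ^ (-γ) :=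
      Real.rpow_le_rpow_of_nonpos (by positivity) hA1 (by linarith)
    have e2 : (3 / 8 * (r ^ 2 * ρ)) ^ (-γ) = (3 / 8 : ℝ) ^ (-γ) * r ^ (-(2 * γ)) * ρ ^ (-γ) := by
      rw [Real.mul_rpow (by norm_num) (by positivity), Real.mul_rpow (by positivity) hρ0.le,
        ← Real.rpow_natCast r 2, ← Real.rpow_mul hr.le]
      push_cast
      ring_nf
    calc r ^ k * A ^ (-γ) * r ^ (-β) = (r ^ k * r ^ (-β)) * A ^ (-γ) := by ring
      _ ≤ r ^ ((k : ℝ) - β) * ((3 / 8 : ℝ) ^ (-γ) * r ^ (-(2 * γ)) * ρ ^ (-γ)) := by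
          rw [e0, ← e2]
          gcongr
      _ = r ^ ((k : ℝ) - β - 2 * γ) * ((3 / 8 : ℝ) ^ (-γ) * ρ ^ (-γ)) := by
          rw [sub_eq_add_neg ((k : ℝ) - β), Real.rpow_add hr]
          ring
      _ ≤ 1 * ((3 / 8 : ℝ) ^ (-γ) * ρ ^ (-γ)) := by
          gcongr
          exact Real.rpow_le_one hr.le hr1 (by linarith)
      _ ≤ _ := by
          rw [one_mul, add_mul]
          have : 0 ≤ (2 : ℝ) ^ (-γ) * ρ ^ (-γ) := by positivity
          linarith
  · have e1 : A ^ (-γ) ≤ (2 * ρ) ^ (-γ) := Real.rpow_le_rpow hA0.le hA2 (by linarith)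
    rw [Real.mul_rpow (by norm_num) hρ0.le] at e1
    calc r ^ k * A ^ (-γ) * r ^ (-β) = (r ^ k * r ^ (-β)) * A ^ (-γ) := by ring
      _ ≤ 1 * ((2 : ℝ) ^ (-γ) * ρ ^ (-γ)) := by
          rw [e0]
          gcongr
          exact Real.rpow_le_one hr.le hr1 (by linarith)
      _ ≤ _ := by
          rw [one_mul, add_mul]
          have : 0 ≤ (3 / 8 : ℝ) ^ (-γ) * ρ ^ (-γ) := by positivity
          linarith

theorem annulus_meas {k : ℕ} (r₀ ρ : ℝ) : MeasurableSet {η : E k | |‖η‖ ^ 2 - r₀| ≤ 1 / ρ} := by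
  have h1 : Continuous fun η : E k => |‖η‖ ^ 2 - r₀| := by fun_prop
  exact measurableSet_le h1.measurable measurable_const

theorem fourier_real_mul {k : ℕ} (c : ℝ) (f : E k → ℂ) (x : E k) :
    𝓕 (fun y : E k => (c : ℂ) * f y) x = (c : ℂ) * 𝓕 f x := by
  rw [Real.fourier_eq', Real.fourier_eq', ← integral_const_mul]
  refine integral_congr_ae (ae_of_all _ fun y => ?_)
  simp only [smul_eq_mul]
  ring

/-- finite measures -/
theorem an_fin (k : ℕ) (hk : 2 ≤ k) (hKK : S_KK k) (β γ K₀ : ℝ) (hβ1 : (k : ℝ) / 2 ≤ β)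
    (hβ2 : β ≤ ((k : ℝ) + 1) / 2) (hγ : γ < ((k : ℝ) + 1) / 2 - β) (hK₀ : 0 ≤ K₀) :
    ∃ K : ℝ, 0 < K ∧ ∀ ν : Measure (E k), IsFiniteMeasure ν →
    (∀ (t : E k) (r : ℝ), 1 ≤ r → ν (closedBall t r) ≤ ENNReal.ofReal (K₀ * r ^ β)) → Ann γ K ν := by
  have hk2 : (2 : ℝ) ≤ k := by exact_mod_cast hk
  obtain ⟨ψ, hψ, hψ0, hψ1⟩ := exists_bump
  set b : ℝ := ((k : ℝ) + 1) / 2 - β - γ with hb
  have hb0 : 0 < b := by linarith
  have hκ : kap k = ((k : ℝ) - 1) / 2 := rfl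
  obtain ⟨τ, C, hτ, hC, hKr⟩ := kr_bound (by omega) hKK hψ β b hb0 (by rw [hκ]; linarith)
  have hexp : β - kap k - 1 + b = -γ := by rw [hκ, hb]; ring
  rw [hexp] at hKr
  obtain ⟨C2, hC2, hg2⟩ := growth (β := β) (τ := τ) (by linarith) hτ
  obtain ⟨C3, hC3, hg3⟩ := gauss_bound (τ := β + 1) (by linarith)
  obtain ⟨C4, hC4, hg4⟩ := growth (β := β) (τ := β + 1) (by linarith) (by linarith)
  set K1 : ℝ := C * (C2 * K₀) * ((3 / 8 : ℝ) ^ (-γ) + 2 ^ (-γ)) with hK1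
  set K2 : ℝ := Real.exp 9 * Real.pi ^ ((k : ℝ) / 2) * C3 * (C4 * K₀) with hK2
  have hK10 : 0 ≤ K1 := by positivity
  have hK20 : 0 ≤ K2 := by positivity
  refine ⟨K1 + K2 + 1, by positivity, fun ν hfin hν => ?_⟩
  intro r₀ hr₀ ρ hρ h hh
  obtain ⟨hhm, ⟨M, hM⟩, -⟩ := hh
  have hρ0 : 0 < ρ := by linarith
  set S : Set (E k) := {η : E k | |‖η‖ ^ 2 - r₀| ≤ 1 / ρ} with hS
  have hSm : MeasurableSet S := annulus_meas r₀ ρ
  rcases le_or_gt 8 (r₀ * ρ) with hcase | hcase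
  · -- first case
    set P : ℝ := r₀ * ρ with hP
    have hr₀0 : 0 < r₀ := by
      by_contra hcon
      have : r₀ * ρ ≤ 0 := mul_nonpos_of_nonpos_of_nonneg (not_lt.1 hcon) hρ0.le
      linarith
    set r : ℝ := √r₀ with hr
    have hr0 : 0 < r := Real.sqrt_pos.2 hr₀0
    have hrsq : r ^ 2 = r₀ := Real.sq_sqrt hr₀0.le
    have hr1 : r ≤ 1 := by
      refine (Real.sqrt_le_sqrt hr₀).trans ?_
      rw [Real.sqrt_one]
    set A : ℝ := 3 / 8 * (P + 3) with hA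
    have hA4 : 4 ≤ A := by rw [hA]; linarith
    have hP0 : 0 < P := by linarith
    set R : ℝ := √(1 + 3 / P) with hR
    have hRsq : R ^ 2 = 1 + 3 / P := Real.sq_sqrt (by positivity)
    have hR1 : 1 ≤ R := by
      rw [hR, Real.one_le_sqrt]
      have : 0 ≤ 3 / P := by positivity
      linarith
    have hR2 : R ≤ 2 := by
      rw [hR, Real.sqrt_le_left (by norm_num)]
      have : 3 / P ≤ 3 := by
        rw [div_le_iff₀ hP0]
        linarith
      linarith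
    set w : E k → ℝ := fun η => ψ (A * (1 - (R ^ 2)⁻¹ * ‖r⁻¹ • η‖ ^ 2)) with hw
    have hwmu : (fun η : E k => (w η : ℂ)) = fun η : E k => mu ψ A R (r⁻¹ • η) := rfl
    have hwc : Continuous w := hψ.1.continuous.comp (by fun_prop)
    have hwi : Integrable w := by
      have h1 := ((mu_int (n := k) hψ (show 0 < A by linarith) (show 0 < R by linarith)
        hR2).comp_smul (inv_ne_zero hr0.ne')).re
      exact h1
    have hwS : ∀ η ∈ S, 1 ≤ w η := by
      intro η hη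
      have h1 : |‖η‖ ^ 2 - r₀| ≤ 1 / ρ := hη
      rw [abs_le] at h1
      have h2 : A * (1 - (R ^ 2)⁻¹ * ‖r⁻¹ • η‖ ^ 2) = 3 / 8 * (3 - ρ * (‖η‖ ^ 2 - r₀)) := by
        rw [hRsq, norm_smul, Real.norm_eq_abs, abs_of_pos (inv_pos.2 hr0), mul_pow, inv_pow, hrsq,
          hA, hP]
        have h3 : r₀ * ρ + 3 ≠ 0 := by positivity
        have h4 : 1 + 3 / (r₀ * ρ) ≠ 0 := by positivity
        field_simp
        ring
      have h3 : ρ * (‖η‖ ^ 2 - r₀) ≤ 1 := by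
        have := mul_le_mul_of_nonneg_left h1.2 hρ0.le
        rwa [mul_one_div_cancel hρ0.ne'] at this
      have h4 : -1 ≤ ρ * (‖η‖ ^ 2 - r₀) := by
        have := mul_le_mul_of_nonneg_left h1.1 hρ0.le
        rwa [mul_neg, mul_one_div_cancel hρ0.ne'] at this
      change 1 ≤ ψ (A * (1 - (R ^ 2)⁻¹ * ‖r⁻¹ • η‖ ^ 2))
      rw [h2, hψ1 _ (by linarith) (by linarith)]
    set G : ℝ → ℝ := fun u => r ^ k * (C * A ^ (-γ) * (1 + r * u) ^ (-τ)) with hG
    have hGm : Measurable G :=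
      ((measurable_const.add (measurable_id.const_mul r)).pow_const _ |>.const_mul _).const_mul _
    have hWG : ∀ x : E k, ‖𝓕 (fun y : E k => (w y : ℂ)) x‖ ≤ G ‖x‖ := by
      intro x
      rw [hwmu, Pool.Agent.Y86.FB.fourier_scale (mu ψ A R) (inv_pos.2 hr0) x, norm_smul,
        Real.norm_eq_abs, abs_of_pos (by positivity), inv_pow, inv_inv, inv_inv]
      have h1 := hKr A R hA4 hR1 hR2 (r • x)
      rw [norm_smul, Real.norm_eq_abs, abs_of_pos hr0] at h1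
      exact mul_le_mul_of_nonneg_left h1 (by positivity)
    have hpos : 0 ≤ r ^ k * (C * A ^ (-γ)) := by
      have : 0 < A := by linarith
      positivity
    refine (principle ν h hhm M hM w hwc.measurable hwi (fun η => hψ0 _) S hwS hSm G hGm hWG
      (ENNReal.ofReal (r ^ k * (C * A ^ (-γ)) * (C2 * K₀ * r ^ (-β)))) fun t => ?_).trans ?_
    · have h1 : ∀ s : E k, ENNReal.ofReal (G ‖s - t‖) = ENNReal.ofReal (r ^ k * (C * A ^ (-γ))) *
          ENNReal.ofReal ((1 + r * ‖s - t‖) ^ (-τ)) := by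
        intro s
        rw [← ENNReal.ofReal_mul hpos]
        congr 1
        simp only [hG]
        ring
      simp only [h1]
      rw [lintegral_const_mul' _ _ ENNReal.ofReal_ne_top, ENNReal.ofReal_mul hpos]
      exact mul_le_mul_right (hg2 K₀ hK₀ ν hν r hr0 hr1 t) _
    · refine mul_le_mul_left (ENNReal.ofReal_le_ofReal ?_) _
      have h1 : r ^ k * A ^ (-γ) * r ^ (-β) ≤ ((3 / 8 : ℝ) ^ (-γ) + 2 ^ (-γ)) * ρ ^ (-γ) := by
        refine pbound (by linarith) (by linarith) hr0 hr1 hρ ?_ ?_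
        · rw [hrsq, hA]
          linarith
        · rw [hA, hP]
          nlinarith
      have hρg : 0 < ρ ^ (-γ) := by positivity
      calc r ^ k * (C * A ^ (-γ)) * (C2 * K₀ * r ^ (-β))
          = C * (C2 * K₀) * (r ^ k * A ^ (-γ) * r ^ (-β)) := by ring
        _ ≤ C * (C2 * K₀) * (((3 / 8 : ℝ) ^ (-γ) + 2 ^ (-γ)) * ρ ^ (-γ)) := by gcongr
        _ = K1 * ρ ^ (-γ) := by rw [hK1]; ring
        _ ≤ (K1 + K2 + 1) * ρ ^ (-γ) := by
            gcongr
            linarith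
  · -- second case
    set r : ℝ := ρ ^ (-(1 / 2) : ℝ) with hr
    have hr0 : 0 < r := by positivity
    have hr1 : r ≤ 1 := Real.rpow_le_one_of_one_le_of_nonpos hρ (by norm_num)
    have hrsq : r ^ 2 = ρ⁻¹ := by
      rw [hr, ← Real.rpow_natCast, ← Real.rpow_mul hρ0.le, ← Real.rpow_neg_one]
      norm_num
    set w : E k → ℝ := fun η => Real.exp 9 * Real.exp (-(ρ * ‖η‖ ^ 2)) with hw
    have hwc : Continuous w := by fun_prop
    have hwi : Integrable w := by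
      refine Integrable.const_mul ?_ _
      have h1 := (GaussianFourier.integrable_cexp_neg_mul_sq_norm_add (V := E k) (b := (ρ : ℂ))
        (by simpa using hρ0) 0 0).re
      refine h1.congr (ae_of_all _ fun η => ?_)
      have h2 : (-(ρ : ℂ) * ‖η‖ ^ 2 + 0 * ⟪(0 : E k), η⟫) = ((-(ρ * ‖η‖ ^ 2) : ℝ) : ℂ) := by
        push_cast
        ring
      simp only [h2]
      rw [← Complex.ofReal_exp]
      rfl
    have hwS : ∀ η ∈ S, 1 ≤ w η := by
      intro η hη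
      have h1 : |‖η‖ ^ 2 - r₀| ≤ 1 / ρ := hη
      rw [abs_le] at h1
      have h3 : ρ * (‖η‖ ^ 2 - r₀) ≤ 1 := by
        have := mul_le_mul_of_nonneg_left h1.2 hρ0.le
        rwa [mul_one_div_cancel hρ0.ne'] at this
      change 1 ≤ Real.exp 9 * Real.exp (-(ρ * ‖η‖ ^ 2))
      rw [← Real.exp_add]
      apply Real.one_le_exp
      nlinarith
    set c : ℝ := Real.exp 9 * (Real.pi / ρ) ^ ((k : ℝ) / 2) * C3 with hc
    have hc0 : 0 ≤ c := by positivity
    set G : ℝ → ℝ := fun u => c * (1 + r * u) ^ (-(β + 1)) with hG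
    have hGm : Measurable G :=
      (measurable_const.add (measurable_id.const_mul r)).pow_const _ |>.const_mul _
    have hWG : ∀ x : E k, ‖𝓕 (fun y : E k => (w y : ℂ)) x‖ ≤ G ‖x‖ := by
      intro x
      have h1 : (fun y : E k => (w y : ℂ)) = fun y : E k => ((Real.exp 9 : ℝ) : ℂ) *
          cexp (-(ρ : ℂ) * ‖y‖ ^ 2) := by
        funext y
        simp only [hw]
        push_cast
        ring_nf
      rw [h1, fourier_real_mul, fourier_gaussian_innerProductSpace (by simpa using hρ0) x,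
        norm_mul, norm_mul, Complex.norm_real, Real.norm_eq_abs, abs_of_pos (Real.exp_pos 9),
        finrank_euclideanSpace, Fintype.card_fin]
      have h2 : ‖((Real.pi : ℂ) / (ρ : ℂ)) ^ ((k : ℂ) / 2)‖ = (Real.pi / ρ) ^ ((k : ℝ) / 2) := by
        rw [← Complex.ofReal_div, Complex.norm_cpow_eq_rpow_re_of_pos (by positivity)]
        congr 1
        simp
      have h3 : ‖cexp (-(Real.pi : ℂ) ^ 2 * ‖x‖ ^ 2 / (ρ : ℂ))‖ =
          Real.exp (-(Real.pi ^ 2 * (r * ‖x‖) ^ 2)) := by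
        have h4 : (-(Real.pi : ℂ) ^ 2 * ‖x‖ ^ 2 / (ρ : ℂ)) =
            ((-(Real.pi ^ 2 * (r * ‖x‖) ^ 2) : ℝ) : ℂ) := by
          rw [mul_pow, hrsq]
          push_cast
          ring
        rw [h4, ← Complex.ofReal_exp, Complex.norm_real, Real.norm_eq_abs,
          abs_of_pos (Real.exp_pos _)]
      rw [h2, h3]
      have h5 := hg3 (r * ‖x‖) (by positivity)
      calc Real.exp 9 * ((Real.pi / ρ) ^ ((k : ℝ) / 2) * Real.exp (-(Real.pi ^ 2 * (r * ‖x‖) ^ 2)))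
          ≤ Real.exp 9 * ((Real.pi / ρ) ^ ((k : ℝ) / 2) * (C3 * (1 + r * ‖x‖) ^ (-(β + 1)))) := by
            gcongr
        _ = G ‖x‖ := by
            simp only [hG, hc]
            ring
    refine (principle ν h hhm M hM w hwc.measurable hwi (fun η => by positivity) S hwS hSm G hGm hWG
      (ENNReal.ofReal (c * (C4 * K₀ * r ^ (-β)))) fun t => ?_).trans ?_
    · have h1 : ∀ s : E k, ENNReal.ofReal (G ‖s - t‖) = ENNReal.ofReal c *
          ENNReal.ofReal ((1 + r * ‖s - t‖) ^ (-(β + 1))) := by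
        intro s
        rw [← ENNReal.ofReal_mul hc0]
      simp only [h1]
      rw [lintegral_const_mul' _ _ ENNReal.ofReal_ne_top, ENNReal.ofReal_mul hc0]
      exact mul_le_mul_right (hg4 K₀ hK₀ ν hν r hr0 hr1 t) _
    · refine mul_le_mul_left (ENNReal.ofReal_le_ofReal ?_) _
      have h1 : c * (C4 * K₀ * r ^ (-β)) = K2 * ρ ^ (-((k : ℝ) / 2) + β / 2) := by
        have h2 : r ^ (-β) = ρ ^ (β / 2) := by
          rw [hr, ← Real.rpow_mul hρ0.le]
          congr 1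
          ring
        rw [h2, hc, hK2, Real.div_rpow Real.pi_pos.le hρ0.le, Real.rpow_add hρ0,
          Real.rpow_neg hρ0.le]
        ring
      have h3 : ρ ^ (-((k : ℝ) / 2) + β / 2) ≤ ρ ^ (-γ) :=
        Real.rpow_le_rpow_of_exponent_le hρ (by linarith)
      have hρg : 0 < ρ ^ (-γ) := by positivity
      rw [h1]
      calc K2 * ρ ^ (-((k : ℝ) / 2) + β / 2) ≤ K2 * ρ ^ (-γ) := by gcongr
        _ ≤ (K1 + K2 + 1) * ρ ^ (-γ) := by
            gcongr
            linarith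

theorem t_an (k : ℕ) (hk : 2 ≤ k) : S_KK k → S_AN k := by
  intro hKK β γ K₀ hβ1 hβ2 hγ hK₀
  obtain ⟨K, hK, H⟩ := an_fin k hk hKK β γ K₀ hβ1 hβ2 hγ hK₀
  refine ⟨K, hK, fun ν hν => ?_⟩
  intro r₀ hr₀ ρ hρ h hh
  obtain ⟨R, hR⟩ := hh.2.2
  set B : Set (E k) := closedBall 0 (max R 1) with hB
  have hfin : IsFiniteMeasure (ν.restrict B) := by
    refine ⟨?_⟩
    rw [Measure.restrict_apply_univ]
    exact lt_of_le_of_lt (hν 0 (max R 1) (le_max_right _ _)) ENNReal.ofReal_lt_top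
  have hgr : ∀ (t : E k) (r : ℝ), 1 ≤ r → (ν.restrict B) (closedBall t r) ≤
      ENNReal.ofReal (K₀ * r ^ β) := fun t r hr =>
    (Measure.restrict_apply_le B _).trans (hν t r hr)
  have h1 := H (ν.restrict B) hfin hgr r₀ hr₀ ρ hρ h hh
  have h2 : ∀ η, Fm h (ν.restrict B) η = Fm h ν η := by
    intro η
    unfold Fm
    refine setIntegral_eq_integral_of_forall_compl_eq_zero fun x hx => ?_
    have h3 : h x = 0 := hR x fun h4 => hx (closedBall_subset_closedBall (le_max_left _ _) h4)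
    rw [h3, zero_mul]
  simp only [h2] at h1
  refine h1.trans (mul_le_mul_right (setLIntegral_le_lintegral _ _) _)

end Pool.Agent.Y86.FC
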